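import Mathlib

set_option autoImplicit false

namespace Pool.Agent.Results.MP_d0f2af_nt.TwoPrimes

open Finset

/-- The sum of the unitary divisors of `n`. -/
def usigma (n : ℕ) : ℕ := ∑ d ∈ n.divisors, if Nat.Coprime d (n / d) then d else 0

lemma usigma_mul (m n : ℕ) (h : m.Coprime n) : usigma (m * n) = usigma m * usigma n := by
  unfold usigma
  rw [Finset.sum_mul_sum, ← Finset.sum_product']
  have e : (m * n).divisors = (m.divisors ×ˢ n.divisors).image (fun p => p.1 * p.2) := by
    rw [Nat.divisors_mul]; rfl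
  rw [e, Finset.sum_image h.mul_injOn_divisors]
  refine Finset.sum_congr rfl fun x hx => ?_
  obtain ⟨a, b⟩ := x
  rw [Finset.mem_product, Nat.mem_divisors, Nat.mem_divisors] at hx
  obtain ⟨⟨⟨a', rfl⟩, h1⟩, ⟨⟨b', rfl⟩, h2⟩⟩ := hx
  dsimp only at *
  have ha : 0 < a := Nat.pos_of_ne_zero (left_ne_zero_of_mul h1)
  have hb : 0 < b := Nat.pos_of_ne_zero (left_ne_zero_of_mul h2)
  have e1 : a * a' * (b * b') / (a * b) = a' * b' := by
    rw [show a * a' * (b * b') = (a * b) * (a' * b') by ring]
    exact Nat.mul_div_cancel_left _ (Nat.mul_pos ha hb)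
  rw [e1, Nat.mul_div_cancel_left _ ha, Nat.mul_div_cancel_left _ hb]
  simp only [Nat.coprime_mul_iff_left, Nat.coprime_mul_iff_right] at h ⊢
  obtain ⟨⟨-, h3⟩, h4, -⟩ := h
  by_cases c1 : a.Coprime a'
  · by_cases c2 : b.Coprime b'
    · rw [if_pos ⟨⟨c1, h3.symm⟩, h4, c2⟩, if_pos c1, if_pos c2]
    · rw [if_neg (fun c => c2 c.2.2), if_neg c2, mul_zero]
  · rw [if_neg (fun c => c1 c.1.1), if_neg c1, zero_mul]

lemma usigma_pow (p e : ℕ) (hp : p.Prime) (he : 0 < e) : usigma (p ^ e) = p ^ e + 1 := by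
  unfold usigma
  rw [Nat.sum_divisors_prime_pow hp]
  obtain ⟨k, rfl⟩ : ∃ k, e = k + 1 := ⟨e - 1, by omega⟩
  rw [Finset.sum_range_succ, Finset.sum_range_succ', Finset.sum_eq_zero]
  · simp [Nat.div_self (pow_pos hp.pos _), add_comm]
  · intro j hj
    rw [Finset.mem_range] at hj
    rw [if_neg]
    rw [Nat.pow_div (by omega) hp.pos, Nat.coprime_pow_left_iff (by omega),
      Nat.coprime_pow_right_iff (by omega), Nat.coprime_self]
    exact hp.ne_one

lemma geo (p t : ℕ) : (∑ j ∈ range t, (p + 1) ^ j) * p + 1 = (p + 1) ^ t := by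
  induction t with
  | zero => simp
  | succ t ih => rw [Finset.sum_range_succ, pow_succ, ← ih]; ring

lemma bound (p e : ℕ) (hp : (p + 1).Prime) :
    (∑ j ∈ range (e + 1), (p + 1) ^ j) * p < (p + 1) * usigma ((p + 1) ^ e) := by
  have g := geo p (e + 1)
  rcases Nat.eq_zero_or_pos e with rfl | he
  · simp [usigma]
  · rw [usigma_pow _ _ hp he]; rw [pow_succ] at g; nlinarith

/-- The only `n = p^a q^b` (primes `p < q`, exponents possibly zero) with `σ(n) = 2 usigma(n)`
is `108`. -/
theorem result (p q a b : ℕ) (hp : p.Prime) (hq : q.Prime) (hpq : p < q)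
    (h : ∑ d ∈ (p ^ a * q ^ b).divisors, d = 2 * usigma (p ^ a * q ^ b)) :
    p ^ a * q ^ b = 108 := by
  have hc : Nat.Coprime (p ^ a) (q ^ b) := Nat.Coprime.pow _ _ ((Nat.coprime_primes hp hq).2 hpq.ne)
  rw [hc.sum_divisors_mul, usigma_mul _ _ hc, Nat.sum_divisors_prime_pow hp,
    Nat.sum_divisors_prime_pow hq] at h
  have p2 := hp.two_le
  obtain ⟨r, rfl⟩ : ∃ r, p = r + 1 := ⟨p - 1, by omega⟩
  obtain ⟨s, rfl⟩ : ∃ s, q = s + 1 := ⟨q - 1, by omega⟩
  have b1 := bound r a hp
  have b2 := bound s b hq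
  by_cases h2 : r = 1
  · subst h2
    rcases a with _ | a
    · exfalso
      have u1 : usigma 1 = 1 := by simp [usigma]
      simp only [pow_zero, u1, zero_add, range_one, sum_singleton, one_mul] at h
      rw [h] at b2; nlinarith
    rcases b with _ | c
    · exfalso
      have u1 : usigma 1 = 1 := by simp [usigma]
      simp only [pow_zero, u1, zero_add, range_one, sum_singleton, mul_one] at h
      rw [h] at b1; omega
    rw [usigma_pow _ _ hp (by omega), usigma_pow _ _ hq (by omega),
      Finset.sum_range_succ _ (c + 1), Finset.sum_range_succ' _ c] at h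
    have g1 := geo 1 (a + 1 + 1)
    rw [pow_succ _ (a + 1)] at g1
    have g2 := geo s c
    simp only [pow_succ _ (_ : ℕ), pow_zero, ← Finset.sum_mul] at h
    rw [pow_succ, pow_succ]
    rw [pow_succ _ a] at g1
    generalize ∑ j ∈ range (a + 1 + 1), (1 + 1) ^ j = S at *
    generalize ∑ j ∈ range c, (s + 1) ^ j = W at *
    generalize (s + 1) ^ c = y at *
    generalize (1 + 1) ^ a = x at *
    have e : S * W * (s + 1) = 3 * (y * (s + 1)) + 3 := by
      zify at h g1 ⊢
      linear_combination h - ((y : ℤ) * (s + 1) + 1) * g1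
    have d3 : s + 1 ∣ 3 := by
      have d1 : s + 1 ∣ 3 * (y * (s + 1)) + 3 := e ▸ Dvd.intro_left _ rfl
      exact (Nat.dvd_add_right (Dvd.intro_left (3 * y) (by ring))).1 d1
    have s2 : s = 2 := by
      have := (Nat.prime_dvd_prime_iff_eq hq Nat.prime_three).1 d3; omega
    subst s2
    have e2 : S * W = 6 * W + 4 := by omega
    have dW : W ∣ 4 := (Nat.dvd_add_right (Dvd.intro_left 6 rfl)).1 (e2 ▸ Dvd.intro_left S rfl)
    have lW := Nat.le_of_dvd (by norm_num) dW
    interval_cases W <;> first | omega | (obtain rfl : x = 2 := by omega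
                                          obtain rfl : y = 9 := by omega
                                          norm_num)
  · exfalso
    have r2 : 2 ≤ r := by omega
    have s4 : 4 ≤ s := by
      by_contra c
      obtain rfl : s = 3 := by omega
      norm_num at hq
    generalize ∑ j ∈ range (a + 1), (r + 1) ^ j = S at *
    generalize ∑ j ∈ range (b + 1), (s + 1) ^ j = T at *
    generalize usigma ((r + 1) ^ a) = U at *
    generalize usigma ((s + 1) ^ b) = V at *
    have c1 : 2 * S < 3 * U := by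
      by_contra c; nlinarith
    have c2 : 4 * T < 5 * V := by
      by_contra c; nlinarith
    nlinarith [Nat.mul_lt_mul'' c1 c2]

end Pool.Agent.Results.MP_d0f2af_nt.TwoPrimes
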